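import Mathlib

/-!
# Vertex stabilisers of actions on graphs with branch functions

Pure graph part of T2: `G` acts on `V` (classes) and `W` (lines), `adj` is invariant; `βV`, `βW`
assign to every vertex different from `q0` the neighbour of `q0` through which it is reached.
-/

set_option autoImplicit false

namespace LTree.Full

variable {G V W : Type*} [Group G] [MulAction G V] [MulAction G W]

/-- One step of a walk from a class to a class through a line. -/
def Stp (adj : V → W → Prop) (p p' : V) : Prop := ∃ l, adj p l ∧ adj p' l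

lemma Stp.symm {adj : V → W → Prop} {p p' : V} (h : Stp adj p p') : Stp adj p' p := by
  obtain ⟨l, h1, h2⟩ := h
  exact ⟨l, h2, h1⟩

lemma Stp.smul {adj : V → W → Prop} (hadj : ∀ (g : G) v w, adj v w → adj (g • v) (g • w))
    (g : G) {p p' : V} (h : Stp adj p p') : Stp adj (g • p) (g • p') := by
  obtain ⟨l, h1, h2⟩ := h
  exact ⟨g • l, hadj g _ _ h1, hadj g _ _ h2⟩

lemma refl_symm {adj : V → W → Prop} {p p' : V} (h : Relation.ReflTransGen (Stp adj) p p') :
    Relation.ReflTransGen (Stp adj) p' p := by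
  induction h with
  | refl => exact Relation.ReflTransGen.refl
  | tail _ h2 ih => exact Relation.ReflTransGen.head h2.symm ih

lemma refl_smul {adj : V → W → Prop} (hadj : ∀ (g : G) v w, adj v w → adj (g • v) (g • w))
    (g : G) {p p' : V} (h : Relation.ReflTransGen (Stp adj) p p') :
    Relation.ReflTransGen (Stp adj) (g • p) (g • p') := by
  induction h with
  | refl => exact Relation.ReflTransGen.refl
  | tail _ h2 ih => exact ih.tail (h2.smul hadj g)

lemma rtg_mono {α : Type*} {r r' : α → α → Prop} (h : ∀ a b, r a b → r' a b) {a b : α}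
    (hr : Relation.ReflTransGen r a b) : Relation.ReflTransGen r' a b :=
  Relation.ReflTransGen.mono h _ _ hr

/-- The finite set of steps used by a walk. -/
lemma walk_steps {adj : V → W → Prop} {p p' : V} (h : Relation.ReflTransGen (Stp adj) p p') :
    ∃ P : Set (V × W × V), P.Finite ∧ (∀ x ∈ P, adj x.1 x.2.1 ∧ adj x.2.2 x.2.1) ∧
      Relation.ReflTransGen (fun a b => ∃ l, (a, l, b) ∈ P) p p' := by
  induction h with
  | refl => exact ⟨∅, Set.finite_empty, by simp, Relation.ReflTransGen.refl⟩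
  | @tail b c _ h2 ih =>
    obtain ⟨P, hP, hadj, hr⟩ := ih
    obtain ⟨l, h1, h3⟩ := h2
    refine ⟨insert (b, l, c) P, hP.insert _, ?_, ?_⟩
    · intro x hx
      rcases Set.mem_insert_iff.1 hx with rfl | hx
      · exact ⟨h1, h3⟩
      · exact hadj x hx
    · refine Relation.ReflTransGen.tail (b := b) ?_ ⟨l, Set.mem_insert _ _⟩
      exact rtg_mono (fun a b ⟨l, hl⟩ => ⟨l, Set.mem_insert_of_mem _ hl⟩) hr

/-- **The graph lemma.** -/
theorem graph_fg (adj : V → W → Prop) (hadj : ∀ (g : G) v w, adj v w → adj (g • v) (g • w))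
    (q0 : V) (βV : V → W) (βW : W → W) (hβW : ∀ l, adj q0 l → βW l = l)
    (hβ : ∀ q l, q ≠ q0 → adj q l → βV q = βW l)
    (S : Finset G) (hS : Subgroup.closure (S : Set G) = ⊤)
    (hconn : ∀ s ∈ S, Relation.ReflTransGen (Stp adj) q0 (s • q0))
    (hstab : ∀ l, adj q0 l → (MulAction.stabilizer G q0 ⊓ MulAction.stabilizer G l).FG) :
    (MulAction.stabilizer G q0).FG := by
  classical
  -- symmetric generating set
  have hconn' : ∀ s : G, s ∈ (S : Set G) ∪ (S : Set G)⁻¹ →
      Relation.ReflTransGen (Stp adj) q0 (s • q0) := by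
    intro s hs
    rcases hs with hs | hs
    · exact hconn s hs
    · have h1 := hconn s⁻¹ (by simpa using hs)
      have h2 := refl_smul hadj s h1
      rw [smul_smul, mul_inv_cancel, one_smul] at h2
      exact refl_symm h2
  set S' : Set G := (S : Set G) ∪ (S : Set G)⁻¹ with hS'
  have hS'f : S'.Finite := by
    rw [hS']
    exact (Finset.finite_toSet S).union (Finset.finite_toSet S).inv
  -- steps
  have hw : ∀ s : S', ∃ P : Set (V × W × V), P.Finite ∧
      (∀ x ∈ P, adj x.1 x.2.1 ∧ adj x.2.2 x.2.1) ∧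
      Relation.ReflTransGen (fun a b => ∃ l, (a, l, b) ∈ P) q0 ((s : G) • q0) :=
    fun s => walk_steps (hconn' s s.2)
  choose Ps hPf hPadj hPr using hw
  have : Finite S' := hS'f
  set P : Set (V × W × V) := ⋃ s : S', Ps s with hP
  have hPfin : P.Finite := Set.finite_iUnion hPf
  have hPa : ∀ x ∈ P, adj x.1 x.2.1 ∧ adj x.2.2 x.2.1 := by
    intro x hx
    obtain ⟨s, hs⟩ := Set.mem_iUnion.1 hx
    exact hPadj s x hs
  have hPc : ∀ s ∈ S', Relation.ReflTransGen (fun a b => ∃ l, (a, l, b) ∈ P) q0 (s • q0) := by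
    intro s hs
    exact rtg_mono (fun a b ⟨l, hl⟩ => ⟨l, Set.mem_iUnion.2 ⟨⟨s, hs⟩, hl⟩⟩)
      (hPr ⟨s, hs⟩)
  -- transporters
  let t : V → G := fun p => if h : ∃ g : G, g • p = q0 then h.choose else 1
  have ht : ∀ p (k : G), k • p = q0 → t p • p = q0 := by
    intro p k hk
    have h : ∃ g : G, g • p = q0 := ⟨k, hk⟩
    simp only [t, dif_pos h]
    exact h.choose_spec
  set St := MulAction.stabilizer G q0 with hSt
  -- neighbours
  let N0 : Set W := (fun x : V × W × V => t x.1 • x.2.1) '' P ∪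
    (fun x : V × W × V => t x.2.2 • x.2.1) '' P
  have hN0 : N0.Finite := (hPfin.image _).union (hPfin.image _)
  let τ : W × W → G := fun n => if h : ∃ g ∈ St, g • n.2 = n.1 then h.choose else 1
  have hτ : ∀ n n' (g : G), g ∈ St → g • n' = n → τ (n, n') ∈ St ∧ τ (n, n') • n' = n := by
    intro n n' g hg hgn
    have h : ∃ g ∈ St, g • (n, n').2 = (n, n').1 := ⟨g, hg, hgn⟩
    simp only [τ, dif_pos h]
    exact h.choose_spec
  have hgen : ∀ n : N0, ∃ B : Set G, B.Finite ∧ (adj q0 n →
      Subgroup.closure B = St ⊓ MulAction.stabilizer G (n : W)) := by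
    intro n
    by_cases h : adj q0 n
    · obtain ⟨B, hB⟩ := hstab n h
      exact ⟨B, B.finite_toSet, fun _ => hB⟩
    · exact ⟨∅, Set.finite_empty, fun h' => absurd h' h⟩
  choose Bn hBnf hBn using hgen
  have : Finite N0 := hN0
  -- the finite generating set
  let B1 : Set G := (fun x : V × W × V => t x.1 * (t x.2.2)⁻¹) '' P
  let B2 : Set G := (fun s : G => t (s • q0) * s * (t q0)⁻¹) '' S'
  let B3 : Set G := {t q0}
  let B4 : Set G := τ '' (N0 ×ˢ N0)
  let B5 : Set G := ⋃ n : N0, Bn n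
  let B : Set G := (B1 ∪ B2 ∪ B3 ∪ B4 ∪ B5) ∩ St
  have hBf : B.Finite := by
    refine Set.Finite.inter_of_left ?_ _
    exact ((((hPfin.image _).union (hS'f.image _)).union (Set.finite_singleton _)).union
      ((hN0.prod hN0).image _)).union (Set.finite_iUnion hBnf)
  set H := Subgroup.closure B with hH
  have hHS : H ≤ St := by
    rw [hH, Subgroup.closure_le]
    exact Set.inter_subset_right
  have hBH : ∀ g, (g ∈ B1 ∨ g ∈ B2 ∨ g ∈ B3 ∨ g ∈ B4) → g ∈ St → g ∈ H := by
    intro g hg hgs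
    apply Subgroup.subset_closure
    refine ⟨?_, hgs⟩
    rcases hg with h | h | h | h
    · exact Or.inl (Or.inl (Or.inl (Or.inl h)))
    · exact Or.inl (Or.inl (Or.inl (Or.inr h)))
    · exact Or.inl (Or.inl (Or.inr h))
    · exact Or.inl (Or.inr h)
  have hB5H : ∀ n ∈ N0, adj q0 n → ∀ g ∈ St ⊓ MulAction.stabilizer G (n : W), g ∈ H := by
    intro n hn hadjn g hg
    have h1 := hBn ⟨n, hn⟩ hadjn
    rw [← h1] at hg
    refine (Subgroup.closure_le (K := H)).2 ?_ hg
    intro b hb
    apply Subgroup.subset_closure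
    refine ⟨Or.inr (Set.mem_iUnion.2 ⟨⟨n, hn⟩, hb⟩), ?_⟩
    have : b ∈ Subgroup.closure (Bn ⟨n, hn⟩) := Subgroup.subset_closure hb
    rw [h1] at this
    exact this.1
  -- the invariant
  let Inv : G → V → Prop := fun k p => (k • p = q0 → k * (t p)⁻¹ ∈ H) ∧
    (k • p ≠ q0 → ∃ γ ∈ H, ∃ n ∈ N0, βV (k • p) = γ • n)
  have hstep : ∀ k p l p', (p, l, p') ∈ P → Inv k p → Inv k p' := by
    intro k p l p' hx hinv
    obtain ⟨ha, ha'⟩ := hPa _ hx
    simp only at ha ha'
    have hal : adj (k • p) (k • l) := hadj k _ _ ha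
    have hal' : adj (k • p') (k • l) := hadj k _ _ ha'
    -- the line is `γ • n`
    have hline : (adj q0 (k • l) ∨ k • p' ≠ q0) → ∃ γ ∈ H, ∃ n ∈ N0, βW (k • l) = γ • n := by
      intro _
      by_cases hp : k • p = q0
      · have hγ := hinv.1 hp
        refine ⟨_, hγ, t p • l, Or.inl ⟨_, hx, rfl⟩, ?_⟩
        rw [hp] at hal
        rw [hβW _ hal, smul_smul, mul_assoc, inv_mul_cancel, mul_one]
      · obtain ⟨γ, hγ, n, hn, e⟩ := hinv.2 hp
        exact ⟨γ, hγ, n, hn, by rw [← hβ _ _ hp hal, e]⟩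
    constructor
    · intro hp'
      rw [hp'] at hal'
      obtain ⟨γ, hγ, n, hn, e⟩ := hline (Or.inl hal')
      rw [hβW _ hal'] at e
      have hkt : k * (t p')⁻¹ ∈ St := by
        rw [hSt, MulAction.mem_stabilizer_iff, mul_smul]
        have h1 := ht p' k hp'
        rw [← h1, smul_smul (t p')⁻¹, inv_mul_cancel, one_smul, hp', h1]
      have hn' : t p' • l ∈ N0 := Or.inr ⟨_, hx, rfl⟩
      have e2 : (γ⁻¹ * (k * (t p')⁻¹)) • (t p' • l) = n := by
        rw [mul_smul, smul_smul (k * (t p')⁻¹), mul_assoc, inv_mul_cancel, mul_one, e, smul_smul,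
          inv_mul_cancel, one_smul]
      have hg : γ⁻¹ * (k * (t p')⁻¹) ∈ St := St.mul_mem (St.inv_mem (hHS hγ)) hkt
      obtain ⟨h1, h2⟩ := hτ n (t p' • l) _ hg e2
      have hτH : τ (n, t p' • l) ∈ H :=
        hBH _ (Or.inr (Or.inr (Or.inr ⟨_, ⟨hn, hn'⟩, rfl⟩))) h1
      have hadjn : adj q0 n := by
        have := hadj γ⁻¹ _ _ hal'
        rw [e, smul_smul, inv_mul_cancel, one_smul] at this
        have h3 : γ⁻¹ • q0 = q0 := St.inv_mem (hHS hγ)
        rwa [h3] at this
      have h4 : γ⁻¹ * (k * (t p')⁻¹) * (τ (n, t p' • l))⁻¹ ∈ H := by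
        refine hB5H n hn hadjn _ ⟨St.mul_mem hg (St.inv_mem h1), ?_⟩
        change (_ : G) • n = n
        have e3 : (τ (n, t p' • l))⁻¹ • n = t p' • l := by
          rw [inv_smul_eq_iff]
          exact h2.symm
        rw [mul_smul, e3, e2]
      have h5 : k * (t p')⁻¹ = γ * (γ⁻¹ * (k * (t p')⁻¹) * (τ (n, t p' • l))⁻¹) *
          τ (n, t p' • l) := by group
      rw [h5]
      exact H.mul_mem (H.mul_mem hγ h4) hτH
    · intro hp'
      obtain ⟨γ, hγ, n, hn, e⟩ := hline (Or.inr hp')
      exact ⟨γ, hγ, n, hn, by rw [hβ _ _ hp' hal', e]⟩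
  have hwalk : ∀ k s, s ∈ S' → Inv k q0 → Inv k (s • q0) := by
    intro k s hs hk
    have key : ∀ v, Relation.ReflTransGen (fun a b => ∃ l, (a, l, b) ∈ P) q0 v → Inv k v := by
      intro v hv
      induction hv with
      | refl => exact hk
      | tail _ h2 ih =>
        obtain ⟨l, hl⟩ := h2
        exact hstep k _ l _ hl ih
    exact key _ (hPc s hs)
  have hjunc : ∀ k s, s ∈ S' → Inv k q0 → Inv (k * s) q0 := by
    intro k s hs hk
    have h1 := hwalk k s hs hk
    constructor
    · intro h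
      rw [mul_smul] at h
      have h2 := h1.1 h
      have h3 : t (s • q0) * s * (t q0)⁻¹ ∈ St := by
        have e1 : t (s • q0) • (s • q0) = q0 := ht _ k h
        have e2 : t q0 • q0 = q0 := ht q0 1 (one_smul _ _)
        have e3 : (t q0)⁻¹ • q0 = q0 := by
          rw [inv_smul_eq_iff]
          exact e2.symm
        rw [hSt, MulAction.mem_stabilizer_iff, mul_smul, mul_smul, e3, e1]
      have h4 : t (s • q0) * s * (t q0)⁻¹ ∈ H := hBH _ (Or.inr (Or.inl ⟨s, hs, rfl⟩)) h3
      have h5 : k * s * (t q0)⁻¹ = (k * (t (s • q0))⁻¹) * (t (s • q0) * s * (t q0)⁻¹) := by group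
      rw [h5]
      exact H.mul_mem h2 h4
    · intro h
      rw [mul_smul] at h ⊢
      exact h1.2 h
  have htq : t q0 ∈ H := by
    refine hBH _ (Or.inr (Or.inr (Or.inl rfl))) ?_
    exact ht q0 1 (one_smul _ _)
  have hall : ∀ g : G, Inv g q0 := by
    intro g
    have hg : g ∈ Subgroup.closure (S : Set G) := by rw [hS]; trivial
    induction hg using Subgroup.closure_induction_right with
    | one =>
      constructor
      · intro _
        rw [one_mul]
        exact H.inv_mem htq
      · intro h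
        exact absurd (one_smul _ _) h
    | mul_right x _ y hy ih => exact hjunc x y (Or.inl hy) ih
    | mul_inv_cancel x _ y hy ih => exact hjunc x y⁻¹ (Or.inr (by simpa using hy)) ih
  refine ⟨hBf.toFinset, ?_⟩
  rw [Set.Finite.coe_toFinset]
  refine le_antisymm hHS ?_
  intro g hg
  have h1 := (hall g).1 hg
  have h2 : g = g * (t q0)⁻¹ * t q0 := by group
  rw [h2]
  exact H.mul_mem h1 htq

end LTree.Full
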