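import Pool.Agent.Work.MP_0c526b_al.Idx.Subtree
import Pool.Agent.Work.MP_0c526b_al.Top
import Pool.Agent.Work.MP_0c526b_al.TopMain

/-!
# Convex subsets of a tree, with the action of their stabilisers
-/

set_option autoImplicit false

namespace LTree.Full

open LTree

variable {Λ : Type*} [AddCommGroup Λ] [LinearOrder Λ] [IsOrderedAddMonoid Λ] {X : Type*}
variable {D : Dist Λ X}

/-- Convex subsets. -/
def Cvx (D : Dist Λ X) (Y : Set X) : Prop := ∀ x ∈ Y, ∀ y ∈ Y, ∀ m, Btw D x m y → m ∈ Y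

/-- The restricted metric. -/
def res (D : Dist Λ X) (Y : Set X) : Dist Λ Y where
  d x y := D.d x y
  d_self x := D.d_self x
  eq_of_d _ _ h := Subtype.ext (D.eq_of_d _ _ h)
  symm x y := D.symm x y
  tri x y z := D.tri x y z

@[simp] lemma res_d {Y : Set X} (x y : Y) : (res D Y).d x y = D.d (x : X) (y : X) := rfl

lemma res_btw {Y : Set X} {x m y : Y} : Btw (res D Y) x m y ↔ Btw D (x : X) (m : X) (y : X) :=
  Iff.rfl

/-- A convex subset is a tree. -/
theorem res_tree (hT : IsTree D) {Y : Set X} (hY : Cvx D Y) : IsTree (res D Y) := by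
  apply Idx.Subtree.isTree_of
  · intro x y t h0 h1
    obtain ⟨p, hp, e⟩ := exists_btw hT h0 h1
    exact ⟨⟨p, hY x x.2 y y.2 p hp⟩, hp, e⟩
  · intro x y p q hp hq
    exact btw_dist hT hp hq
  · intro x y z
    obtain ⟨m, m1, m2, m3⟩ := exists_median hT (x : X) y z
    exact ⟨⟨m, hY x x.2 y y.2 m m1⟩, m1, m2, m3⟩

variable {G : Type*} [Group G] [MulAction G X]

/-- The stabiliser of a set acts on it. -/
instance stabAct (Y : Set X) : MulAction (stab G Y) Y where
  smul g y := ⟨(g : G) • (y : X), (g.2 (y : X)).2 y.2⟩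
  one_smul y := Subtype.ext (one_smul G (y : X))
  mul_smul g h y := Subtype.ext (mul_smul (g : G) (h : G) (y : X))

@[simp] lemma coe_stab_smul {Y : Set X} (g : stab G Y) (y : Y) :
    ((g • y : Y) : X) = (g : G) • (y : X) := rfl

/-- The action on a convex subset. -/
theorem res_free (hG : FreeAct D G) (Y : Set X) : FreeAct (res D Y) (stab G Y) where
  iso g x y := hG.iso g x y
  free g x h := by
    apply Subtype.ext
    exact hG.free g x (congrArg Subtype.val h)
  noinv g := by
    rintro ⟨h1, x, hx⟩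
    by_cases hg : g = 1
    · subst hg
      exact h1 x (one_smul _ _)
    · have hg' : (g : G) ≠ 1 := fun h => hg (Subtype.ext h)
      apply hG.ne2 hg' (x : X)
      have := congrArg Subtype.val hx
      rw [pow_two, mul_smul] at this
      exact this

lemma mem_axis_res {Y : Set X} {g : stab G Y} {y : Y} :
    y ∈ axis (res D Y) g ↔ (y : X) ∈ axis D (g : G) := Iff.rfl

lemma tl_res {Y : Set X} (g : stab G Y) (y : Y) : tl (res D Y) y g = tl D (y : X) (g : G) := rfl

/-- An element preserving a nonempty convex subset has an axis meeting it. -/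
lemma axis_inter (hT : IsTree D) (hG : FreeAct D G) {Y : Set X} (hY : Cvx D Y) {g : G}
    (hg : g ∈ stab G Y) (h1 : g ≠ 1) {y : X} (hy : y ∈ Y) :
    ∃ p ∈ axis D g, p ∈ Y ∧ Btw D y p (g • y) := by
  obtain ⟨p, -, p2, -, hp, -, -⟩ := exists_proj hT hG h1 y
  exact ⟨p, hp, hY y hy _ ((hg y).2 hy) p p2, p2⟩

/-- The gate of a point of `Y` on the axis is in `Y`. -/
lemma pr_mem_of_stab (hT : IsTree D) (hG : FreeAct D G) {Y : Set X} (hY : Cvx D Y) {g : G}
    (hg : g ∈ stab G Y) (h1 : g ≠ 1) {y : X} (hy : y ∈ Y) :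
    pr (axis_gated hT hG h1) y ∈ Y := by
  obtain ⟨p, hp, hpY, -⟩ := axis_inter hT hG hY hg h1 hy
  exact hY y hy p hpY _ (pr_btw _ y hp)

/-- An element of the stabiliser of `Y` preserves the axis of an element of the stabiliser if it
preserves its trace in `Y`. -/
lemma stab_axis_iff (hT : IsTree D) (hG : FreeAct D G) {Y : Set X} (hY : Cvx D Y)
    (hne : Y.Nonempty) {a : stab G Y} (ha : a ≠ 1) (b : stab G Y) :
    b ∈ stab (stab G Y) (axis (res D Y) a) ↔ (b : G) ∈ stab G (axis D (a : G)) := by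
  have ha' : (a : G) ≠ 1 := fun h => ha (Subtype.ext h)
  constructor
  · intro hb
    obtain ⟨y, hy⟩ := hne
    obtain ⟨p, hp, hpY, -⟩ := axis_inter hT hG hY a.2 ha' hy
    have hap : (a : G) • p ∈ axis D (a : G) := smul_mem_axis_self hG hp
    have hapY : (a : G) • p ∈ Y := (a.2 p).2 hpY
    have hb' := (stab _ _).inv_mem hb
    have h1 : (b : G)⁻¹ • p ∈ axis D (a : G) := (hb' ⟨p, hpY⟩).2 hp
    have h2 : (b : G)⁻¹ • (a : G) • p ∈ axis D (a : G) := (hb' ⟨_, hapY⟩).2 hap
    exact overlap hT hG ha' hp ha' rfl hp hap h1 h2 le_rfl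
  · intro hb y
    exact hb (y : X)

/-- Equality of axes can be tested in `Y`. -/
lemma axis_res_eq {Y : Set X} {a b : stab G Y}
    (h : axis D (a : G) = axis D (b : G)) : axis (res D Y) a = axis (res D Y) b := by
  ext y
  rw [mem_axis_res, mem_axis_res, h]

end LTree.Full
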