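import Pool.Agent.Work.MP_0c526b_al.Idx.Fold

/-!
# The closing lemma with its chain, and the stable lemma
-/

set_option autoImplicit false

namespace LTree.Idx

open LTree

variable {Λ : Type*} [AddCommGroup Λ] [LinearOrder Λ] [IsOrderedAddMonoid Λ] {X : Type*}
variable {D : Dist Λ X} {G : Type*} [Group G] [MulAction G X]

/-- The closing lemma: the set of times reached by good steps has a largest element. -/
theorem closing' {hT : IsTree D} {F Sg : Finset X} {L : Set (Letter X G)} {p q : X} {g : G}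
    {w0 : List (Letter X G)} (h : Cl hT F Sg L p q g w0) (hp : p ∈ hull D F) (hq : q ∈ hull D F)
    (gp : g • p ∈ hull D F) (gq : g • q ∈ hull D F) :
    ∃ μ ∈ JJ hT L p q g, ∀ t ∈ JJ hT L p q g, t ≤ μ := by
  by_contra hmax
  push Not at hmax
  by_cases hI : ∀ s ∈ JJ hT L p q g, ∃ t ∈ JJ hT L p q g, s < t ∧
      ¬ Cc (JJ hT L p q g) (t - s)
  · exact caseOne h hp hq gp gq hI
  · push Not at hI
    obtain ⟨s, hs, hC⟩ := hI
    refine caseTwo h hp hq gp gq hmax hs ?_
    intro t ht hst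
    rcases hst.eq_or_lt with e | e
    · rw [← e, sub_self]; exact Cc_zero _
    · exact hC t ht e

/-- The letters of `T` and the flagged letter `(p,q,g)` with its inverse. -/
def LT (T : Set (Letter X G)) (p q : X) (g : G) : Set (Letter X G) :=
  {l | l ∈ lett T ∨ l = ⟨p, q, g, true⟩ ∨ l = (⟨p, q, g, true⟩ : Letter X G).inv}

/-- Shortening the flagged letter. -/
lemma short_word (hT : IsTree D) (hG : FreeAct D G) {T : Set (Letter X G)} {p q q' : X} {g : G}
    (hq' : Btw D p q' q) {w : List (Letter X G)}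
    (hw : ∀ l ∈ w, l ∈ LT T p q g) {t : Λ} (ht : t ≤ D.d p q') {y : X} (hok : ok D t w y) :
    ∃ w' : List (Letter X G), (∀ l ∈ w', l ∈ LT T p q' g) ∧ val w' = val w ∧ ok D t w' y := by
  induction w generalizing y with
  | nil => exact ⟨[], by simp, rfl, trivial⟩
  | cons l w ih =>
    obtain ⟨w', hw', hv, hok'⟩ := ih (fun l' hl' => hw l' (by simp [hl'])) hok.2
    rcases hw l (by simp) with h | h | h
    · refine ⟨l :: w', ?_, by rw [val, val, hv], hok.1, hok'⟩
      intro l' hl'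
      rcases List.mem_cons.1 hl' with rfl | h4
      · exact Or.inl h
      · exact hw' l' h4
    · subst h
      refine ⟨⟨p, q', g, true⟩ :: w', ?_, by rw [val, val, hv], ⟨?_, hok.1.2⟩, hok'⟩
      · intro l' hl'
        rcases List.mem_cons.1 hl' with h4 | h4
        · exact Or.inr (Or.inl h4)
        · exact hw' l' h4
      · exact (btw_before hT hq' hok.1.1 ((hok.1.2 rfl).trans_le ht)).1
    · subst h
      have hb : Btw D p (g⁻¹ • y) q := by
        have := hG.btw g⁻¹ hok.1.1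
        unfold Letter.inv at this
        simpa using this
      have hf : D.d p (g⁻¹ • y) < D.d p q' := by
        have h1 : D.d (g • p) y < t := hok.1.2 rfl
        rw [← hG.iso g⁻¹, inv_smul_smul] at h1
        exact h1.trans_le ht
      refine ⟨(⟨p, q', g, true⟩ : Letter X G).inv :: w', ?_, ?_, ⟨?_, hok.1.2⟩, hok'⟩
      · intro l' hl'
        rcases List.mem_cons.1 hl' with h4 | h4
        · exact Or.inr (Or.inr h4)
        · exact hw' l' h4
      · rw [val, val, hv]; rfl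
      · have h2 := hG.btw g (btw_before hT hq' hb hf).1
        rw [smul_inv_smul] at h2
        exact h2

/-- The common part of the two fold steps: all edges of the new family which are wanted. -/
lemma fold_core_k (hT : IsTree D) {F : Finset X} {T : Set (Letter X G)} (hG : FreeAct D G)
    {c : ℤ} (k : ℤ) (hc : Claim D F T c) {p q : X} {g : G} (hp : p ∈ hull D F)
    (hq : q ∈ hull D F) (gp : g • p ∈ hull D F) (gq : g • q ∈ hull D F)
    (E2 : Set (Edge X G)) (hE2 : E2.Finite) (hE2T : ∀ e ∈ E2, EdgeOf D T e) (R2 : Set X)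
    (hR2 : R2.Finite) (hR2b : ∀ r ∈ R2, Btw D p r q)
    (hcount : ∀ (V : Finset X) (E : Set (Edge X G)) (R : Finset X), Sk D F V → E2 ⊆ E →
      (∀ e ∈ E, EdgeOf D T e) →
      (∀ r ∈ R, Btw D p r q ∧ r ≠ p ∧ r ≠ q ∧ r ∈ V ∧ g • r ∈ V) →
      (∀ r ∈ R2, r ≠ p → r ≠ q → r ∈ R) → p ∈ V → q ∈ V → g • p ∈ V → g • q ∈ V →
      Phi D F V (insert ⟨p, q, g, q⟩ ((insert (⟨p, q, g, p⟩ : Edge X G) E) ∪
        (fun r => (⟨p, q, g, r⟩ : Edge X G)) '' (R : Set X))) + k ≤ Phi D F V E) :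
    Claim D F (insert ⟨p, q, g, false⟩ T) (c - k) := by
  classical
  intro V0 E0 hV0 hE0 hE0T
  obtain ⟨E1, R1, hE1, hR1, hE1T, hR1b, hsub⟩ := fx_exists_points hE0 hE0T
  have hR : (R1 ∪ R2).Finite := hR1.union hR2
  let RR : Finset X := hR.toFinset
  have hRR : ∀ r ∈ RR, Btw D p r q := by
    intro r hr
    rcases hR.mem_toFinset.1 hr with h | h
    · exact hR1b r h
    · exact hR2b r h
  have hin : ∀ r, Btw D p r q → r ∈ hull D F ∧ g • r ∈ hull D F := fun r hr =>
    ⟨hull_convex hT hp hq hr, hull_convex hT gp gq (hG.btw g hr)⟩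
  let W : Finset X := V0 ∪ ({p, q, g • p, g • q} ∪ (RR ∪ RR.image (fun r => g • r)))
  have hW : ∀ x ∈ W, x ∈ hull D F := by
    intro x hx
    simp only [W, Finset.mem_union, Finset.mem_insert, Finset.mem_singleton,
      Finset.mem_image] at hx
    rcases hx with h | ((rfl | rfl | rfl | rfl) | (h | ⟨r, h, rfl⟩))
    · exact hV0 x h
    · exact hp
    · exact hq
    · exact gp
    · exact gq
    · exact (hin x (hRR x h)).1
    · exact (hin r (hRR r h)).2
  obtain ⟨V, E, hWV, hEE, hEf, hSk, hEV, hPhi⟩ := hc W (E1 ∪ E2) hW (hE1.union hE2) (by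
    intro e he
    rcases he with h | h
    · exact hE1T e h
    · exact hE2T e h)
  have mp : p ∈ V := hWV (by simp [W])
  have mq : q ∈ V := hWV (by simp [W])
  have mgp : g • p ∈ V := hWV (by simp [W])
  have mgq : g • q ∈ V := hWV (by simp [W])
  have mR : ∀ r ∈ RR, r ∈ V := fun r hr => hWV (by simp [W, hr])
  have mgR : ∀ r ∈ RR, g • r ∈ V := fun r hr => hWV (by
    simp only [W, Finset.mem_union, Finset.mem_image]
    exact Or.inr (Or.inr (Or.inr ⟨r, hr, rfl⟩)))
  let R : Finset X := RR.filter (fun r => r ≠ p ∧ r ≠ q)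
  have hRmem : ∀ r ∈ R, Btw D p r q ∧ r ≠ p ∧ r ≠ q ∧ r ∈ V ∧ g • r ∈ V := by
    intro r hr
    obtain ⟨h1, h2, h3⟩ := Finset.mem_filter.1 hr
    exact ⟨hRR r h1, h2, h3, mR r h1, mgR r h1⟩
  have hc' := hcount V E R hSk (fun e he => hEE (Or.inr he)) (fun e he => (hEV e he).1) hRmem
    (fun r hr h1 h2 => Finset.mem_filter.2 ⟨hR.mem_toFinset.2 (Or.inr hr), h1, h2⟩) mp mq mgp mgq
  refine ⟨V, _, fun x hx => hWV (Finset.mem_union_left _ hx), ?_, ?_, hSk, ?_, by linarith⟩
  · intro e he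
    rcases hsub he with h | ⟨r, h, rfl⟩
    · exact Or.inr (Or.inl (Or.inr (hEE (Or.inl h))))
    · by_cases e1 : r = p
      · subst e1; exact Or.inr (Or.inl (Or.inl rfl))
      by_cases e2 : r = q
      · subst e2; exact Or.inl rfl
      · exact Or.inr (Or.inr ⟨r, Finset.mem_coe.2 (Finset.mem_filter.2
          ⟨hR.mem_toFinset.2 (Or.inl h), e1, e2⟩), rfl⟩)
  · exact (((hEf.insert _).union (R.finite_toSet.image _)).insert _)
  · intro e he
    rcases he with rfl | (rfl | he) | ⟨r, hr, rfl⟩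
    · exact ⟨⟨Or.inl rfl, btw_right _ _⟩, mq, mgq⟩
    · exact ⟨⟨Or.inl rfl, btw_left _ _⟩, mp, mgp⟩
    · obtain ⟨h1, h2⟩ := hEV e he
      exact ⟨fx_edgeOf_mono (Set.subset_insert _ _) h1, h2⟩
    · obtain ⟨h1, h2, h3, h4, h5⟩ := hRmem r hr
      exact ⟨⟨Or.inl rfl, h1⟩, h4, h5⟩

/-- A word valid on a nondegenerate beginning of `[p,q]`. -/
def Begin (D : Dist Λ X) (T : Set (Letter X G)) (p q : X) (g : G) : Prop :=
  ∃ (w : List (Letter X G)) (m : X), (∀ l ∈ w, l ∈ lett T) ∧ val w = g ∧ m ≠ p ∧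
    Btw D p m q ∧ mem D w p ∧ mem D w m

/-- **Stable lemma.** If no word with value `g` is valid on a beginning of `[p,q]`, but `g` connects
`p` to `g p` and `y` to `g y`, then a new family lowers the index. -/
theorem stable_step (hT : IsTree D) (hG : FreeAct D G) {F : Finset X} {T : Set (Letter X G)}
    (hS : Sys D F T) {c : ℤ} (hc : Claim D F T c) {p q : X} {g : G} (hp : p ∈ hull D F)
    (hq : q ∈ hull D F) (gp : g • p ∈ hull D F) (gq : g • q ∈ hull D F)
    (h0 : Conn D T p g) (hpq : p ≠ q) (h1 : ¬ Begin D T p q g) (h2 : Conn D T q g) :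
    Claim D F (insert ⟨p, q, g, false⟩ T) (c - 1) := by
  obtain ⟨E1, hE1, hE1T, hE1c⟩ := word_rV hG hS.flag h0
  obtain ⟨E2, hE2, hE2T, hE2c⟩ := word_rV hG hS.flag h2
  refine fold_core_k hT hG 1 hc hp hq gp gq (E1 ∪ E2) (hE1.union hE2) ?_ ∅ Set.finite_empty
    (fun r hr => absurd hr (Set.notMem_empty r)) ?_
  · intro e he
    rcases he with h | h
    · exact hE1T e h
    · exact hE2T e h
  · intro V E RR hV hEE hET hRR hRsub mp mq mgp mgq
    have a1 : Phi D F V (insert (⟨p, q, g, p⟩ : Edge X G) E) + 1 ≤ Phi D F V E := by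
      refine Phi_insert_merge hT hG hV (⟨p, q, g, p⟩ : Edge X G) mp mgp hp hq gp gq
        (btw_left _ _) (fx_eqv_mono (fun e he => hEE (Or.inl he)) hE1c)
        ⟨drn D p q, Or.inr ⟨hpq.symm, rfl⟩, ?_⟩
      intro hcon
      obtain ⟨w, m, hw, hy, hm, hb, m1, m2⟩ := rH_word hT hG hS.flag hET hpq.symm hcon
      refine h1 ⟨w, m, hw, ?_, hm, hb, m1, m2⟩
      have h2 : (g⁻¹ * val w) • p = p := by
        rw [mul_smul, ← hy, inv_smul_smul]
      have h3 := hG.free _ _ h2
      exact (inv_mul_eq_one.1 h3).symm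
    have a2 := fx_Phi_interior hT hG hV (E := insert (⟨p, q, g, p⟩ : Edge X G) E) hp hq gp gq RR
      hRR
    have a3 : Phi D F V (insert ⟨p, q, g, q⟩ ((insert (⟨p, q, g, p⟩ : Edge X G) E) ∪
        (fun r => (⟨p, q, g, r⟩ : Edge X G)) '' (RR : Set X))) ≤
        Phi D F V ((insert (⟨p, q, g, p⟩ : Edge X G) E) ∪
        (fun r => (⟨p, q, g, r⟩ : Edge X G)) '' (RR : Set X)) := by
      refine Phi_insert_conn hT hG hV (⟨p, q, g, q⟩ : Edge X G) mq mgq hp hq gp gq
        (btw_right _ _) ?_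
      refine fx_eqv_mono ?_ hE2c
      intro e he
      exact Or.inl (Or.inr (hEE (Or.inr he)))
    linarith

end LTree.Idx
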