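import Pool.Agent.Work.MP_0c526b_al.Idx.Ncl

/-!
# The count of an abstract system of partial translations: definitions and paths

A group `G` acts on a set `P` (vertices) and on a set `Q` (directions), with an
equivariant map `π : Q → P`. An edge `e` joins the vertex `e.v` to `e.h • e.v`, and each direction
`d ∈ e.D` at `e.v` to the direction `e.h • d` at `e.h • e.v`.
-/

set_option autoImplicit false

namespace LTree.AbsK

open LTree.Idx Relation

variable {G : Type*} [Group G] {P : Type*} [MulAction G P] {Q : Type*}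

/-- An edge from `v` to `h • v`, carrying the directions of `D` at `v`. -/
structure Ed (G P Q : Type*) where
  v : P
  h : G
  D : Finset Q

/-- Adjacency of vertices. -/
def rv (E : Set (Ed G P Q)) : P → P → Prop := fun x y => ∃ e ∈ E, x = e.v ∧ y = e.h • e.v

/-- Adjacency of directions. -/
def rd [MulAction G Q] (E : Set (Ed G P Q)) : Q → Q → Prop :=
  fun c d => ∃ e ∈ E, c ∈ e.D ∧ d = e.h • c

/-- `g` is the value of a path of edges starting at `v`. -/
inductive Pw (E : Set (Ed G P Q)) : P → G → Prop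
  | nil (v : P) : Pw E v 1
  | fw (e : Ed G P Q) (he : e ∈ E) (g : G) (h : Pw E (e.h • e.v) g) : Pw E e.v (g * e.h)
  | bw (e : Ed G P Q) (he : e ∈ E) (g : G) (h : Pw E e.v g) : Pw E (e.h • e.v) (g * e.h⁻¹)

/-- The group of the leaf of `v` is not trivial. -/
def Nt (E : Set (Ed G P Q)) (v : P) : Prop := ∃ g : G, g ≠ 1 ∧ Pw E v g ∧ g • v = v

/-- Number of the leaves with nontrivial group. -/
noncomputable def nt (E : Set (Ed G P Q)) (VF : Finset P) : ℕ := by
  classical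
  exact ncl (rv E) (VF.filter (Nt E))

/-- The count. -/
noncomputable def Psi [MulAction G Q] (E : Set (Ed G P Q)) (VF : Finset P) (DF : Finset Q) : ℤ :=
  (ncl (rd E) DF : ℤ) - 2 * (ncl (rv E) VF : ℤ) + 2 * (nt E VF : ℤ)

/-- Hypotheses on the actions. -/
structure Acts (G : Type*) [Group G] {P : Type*} [MulAction G P] {Q : Type*} [MulAction G Q]
    (π : Q → P) : Prop where
  eqv : ∀ (g : G) (d : Q), π (g • d) = g • π d
  tf : ∀ g : G, g * g = 1 → g = 1

/-- The directions of the edge are at its origin and have trivial stabilisers. -/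
def EOK [MulAction G Q] (π : Q → P) (e : Ed G P Q) : Prop :=
  ∀ d ∈ e.D, π d = e.v ∧ ∀ g : G, g • d = d → g = 1

/-- The leaf groups which are nontrivial for `E` are the same for `E'`. -/
def Same (E E' : Set (Ed G P Q)) : Prop :=
  ∀ v, Nt E v → ∀ g : G, g • v = v → (Pw E' v g ↔ Pw E v g)

/-! ### Paths -/

lemma Pw.mul {E : Set (Ed G P Q)} {v : P} {g k : G} (h : Pw E v g) (h' : Pw E (g • v) k) :
    Pw E v (k * g) := by
  induction h with
  | nil v => simpa using h'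
  | fw e he g _ ih =>
    rw [← mul_assoc]
    refine Pw.fw e he _ (ih ?_)
    rwa [mul_smul] at h'
  | bw e he g _ ih =>
    rw [← mul_assoc]
    refine Pw.bw e he _ (ih ?_)
    rwa [mul_smul, inv_smul_smul] at h'

lemma Pw.one_fw {E : Set (Ed G P Q)} {e : Ed G P Q} (he : e ∈ E) : Pw E e.v e.h := by
  simpa using Pw.fw e he 1 (Pw.nil _)

lemma Pw.one_bw {E : Set (Ed G P Q)} {e : Ed G P Q} (he : e ∈ E) :
    Pw E (e.h • e.v) e.h⁻¹ := by
  simpa using Pw.bw e he 1 (Pw.nil _)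

lemma Pw.inv {E : Set (Ed G P Q)} {v : P} {g : G} (h : Pw E v g) : Pw E (g • v) g⁻¹ := by
  induction h with
  | nil v => simpa using Pw.nil (E := E) v
  | fw e he g _ ih =>
    rw [mul_inv_rev, mul_smul]
    refine Pw.mul ih ?_
    rw [inv_smul_smul]
    exact Pw.one_bw he
  | bw e he g _ ih =>
    rw [mul_inv_rev, mul_smul, inv_smul_smul, inv_inv]
    refine Pw.mul ih ?_
    rw [inv_smul_smul]
    exact Pw.one_fw he

lemma Pw.mono {E E' : Set (Ed G P Q)} (hE : E ⊆ E') {v : P} {g : G} (h : Pw E v g) :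
    Pw E' v g := by
  induction h with
  | nil v => exact Pw.nil v
  | fw e he g _ ih => exact Pw.fw e (hE he) g ih
  | bw e he g _ ih => exact Pw.bw e (hE he) g ih

lemma rv_iff {E : Set (Ed G P Q)} {v w : P} :
    EqvGen (rv E) v w ↔ ∃ g : G, Pw E v g ∧ w = g • v := by
  constructor
  · intro h
    induction h with
    | rel x y h =>
      obtain ⟨e, he, rfl, rfl⟩ := h
      exact ⟨e.h, Pw.one_fw he, rfl⟩
    | refl x => exact ⟨1, Pw.nil x, by simp⟩
    | symm x y _ ih =>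
      obtain ⟨g, hg, rfl⟩ := ih
      exact ⟨g⁻¹, hg.inv, by simp⟩
    | trans x y z _ _ ih1 ih2 =>
      obtain ⟨g, hg, rfl⟩ := ih1
      obtain ⟨k, hk, rfl⟩ := ih2
      exact ⟨k * g, hg.mul hk, by rw [mul_smul]⟩
  · rintro ⟨g, hg, rfl⟩
    induction hg with
    | nil v => rw [one_smul]; exact EqvGen.refl _
    | fw e he g _ ih =>
      rw [mul_smul]
      exact EqvGen.trans _ _ _ (EqvGen.rel _ _ ⟨e, he, rfl, rfl⟩) ih
    | bw e he g _ ih =>
      rw [mul_smul, inv_smul_smul]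
      exact EqvGen.trans _ _ _ (EqvGen.symm _ _ (EqvGen.rel _ _ ⟨e, he, rfl, rfl⟩)) ih

/-- Transport of paths by a change of vertices. -/
lemma Pw.transport {E E' : Set (Ed G P Q)} (c : P → G)
    (hc : ∀ e ∈ E', Pw E (c e.v • e.v) (c (e.h • e.v) * e.h * (c e.v)⁻¹)) {v : P} {g : G}
    (h : Pw E' v g) : Pw E (c v • v) (c (g • v) * g * (c v)⁻¹) := by
  induction h with
  | nil v => simpa using Pw.nil (E := E) (c v • v)
  | fw e he g _ ih =>
    have h1 := hc e he
    have h2 : (c (e.h • e.v) * e.h * (c e.v)⁻¹) • (c e.v • e.v) = c (e.h • e.v) • (e.h • e.v) := by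
      rw [smul_smul, smul_smul]; group
    have h3 := h1.mul (k := c (g • e.h • e.v) * g * (c (e.h • e.v))⁻¹) (by rw [h2]; exact ih)
    rw [mul_smul]
    convert h3 using 1
    group
  | bw e he g _ ih =>
    have h1 := (hc e he).inv
    have h2 : (c (e.h • e.v) * e.h * (c e.v)⁻¹) • (c e.v • e.v) = c (e.h • e.v) • (e.h • e.v) := by
      rw [smul_smul, smul_smul]; group
    rw [h2] at h1
    have h4 : (c (e.h • e.v) * e.h * (c e.v)⁻¹)⁻¹ • (c (e.h • e.v) • e.h • e.v) =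
        c e.v • e.v := by
      rw [← h2, inv_smul_smul]
    have h3 := h1.mul (k := c (g • e.v) * g * (c e.v)⁻¹) (by rw [h4]; exact ih)
    rw [mul_smul, inv_smul_smul]
    convert h3 using 1
    group

lemma Nt.mono {E E' : Set (Ed G P Q)} (hE : E ⊆ E') {v : P} (h : Nt E v) : Nt E' v := by
  obtain ⟨g, h1, h2, h3⟩ := h
  exact ⟨g, h1, h2.mono hE, h3⟩

lemma Nt.conn {E : Set (Ed G P Q)} {v w : P} (h : Nt E v) (hc : EqvGen (rv E) v w) : Nt E w := by
  obtain ⟨g, h1, h2, h3⟩ := h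
  obtain ⟨k, hk, rfl⟩ := rv_iff.1 hc
  refine ⟨k * g * k⁻¹, ?_, ?_, ?_⟩
  · intro e
    apply h1
    have : g = k⁻¹ * (k * g * k⁻¹) * k := by group
    rw [this, e]; group
  · refine Pw.mul hk.inv ?_
    rw [inv_smul_smul]
    refine h2.mul ?_
    rw [h3]; exact hk
  · rw [mul_smul, mul_smul, inv_smul_smul, h3]

lemma Same.refl (E : Set (Ed G P Q)) : Same E E := fun _ _ _ _ => Iff.rfl

lemma Same.trans {E E' E'' : Set (Ed G P Q)} (hE : E ⊆ E') (h : Same E E') (h' : Same E' E'') :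
    Same E E'' := fun v hv g hg => (h' v (hv.mono hE) g hg).trans (h v hv g hg)

/-! ### Directions -/

section Dir

variable [MulAction G Q] {π : Q → P}

lemma rd_pw (hA : Acts G π) {E : Set (Ed G P Q)} (hE : ∀ e ∈ E, EOK π e) {c d : Q}
    (h : EqvGen (rd E) c d) : ∃ g : G, d = g • c ∧ Pw E (π c) g := by
  induction h with
  | rel x y h =>
    obtain ⟨e, he, hx, rfl⟩ := h
    refine ⟨e.h, rfl, ?_⟩
    rw [(hE e he x hx).1]
    exact Pw.one_fw he
  | refl x => exact ⟨1, by simp, Pw.nil _⟩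
  | symm x y _ ih =>
    obtain ⟨g, rfl, hg⟩ := ih
    refine ⟨g⁻¹, by simp, ?_⟩
    rw [hA.eqv]
    exact hg.inv
  | trans x y z _ _ ih1 ih2 =>
    obtain ⟨g, rfl, hg⟩ := ih1
    obtain ⟨k, rfl, hk⟩ := ih2
    refine ⟨k * g, by rw [mul_smul], hg.mul ?_⟩
    rw [hA.eqv] at hk
    exact hk

lemma smul_inj {g k : G} {d : Q} (hd : ∀ g : G, g • d = d → g = 1) (h : g • d = k • d) :
    g = k := by
  have : (k⁻¹ * g) • d = d := by rw [mul_smul, h, inv_smul_smul]
  have := hd _ this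
  exact (inv_mul_eq_one.1 this).symm

/-- A nonredundant edge merges its directions effectively. -/
lemma not_rd (hA : Acts G π) {E : Set (Ed G P Q)} (hE : ∀ e ∈ E, EOK π e) {v : P} {h : G} {d : Q}
    (hd : π d = v) (hd' : ∀ g : G, g • d = d → g = 1) (hn : ¬ Pw E v h) :
    ¬ EqvGen (rd E) d (h • d) := by
  intro hc
  obtain ⟨g, h1, h2⟩ := rd_pw hA hE hc
  have := smul_inj hd' h1
  subst this
  rw [hd] at h2
  exact hn h2

end Dir

/-- Equivalence relation generated by a relation and one more pair. -/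
lemma eqvGen_insert {α : Type*} {r r' : α → α → Prop} {a b : α}
    (h : ∀ x y, r' x y → r x y ∨ (x = a ∧ y = b)) {x y : α} (hxy : EqvGen r' x y) :
    EqvGen r x y ∨ (EqvGen r x a ∧ EqvGen r b y) ∨ (EqvGen r x b ∧ EqvGen r a y) := by
  induction hxy with
  | rel x y h1 =>
    rcases h x y h1 with h2 | ⟨rfl, rfl⟩
    · exact Or.inl (EqvGen.rel _ _ h2)
    · exact Or.inr (Or.inl ⟨EqvGen.refl _, EqvGen.refl _⟩)
  | refl x => exact Or.inl (EqvGen.refl _)
  | symm x y _ ih =>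
    rcases ih with h1 | ⟨h1, h2⟩ | ⟨h1, h2⟩
    · exact Or.inl (EqvGen.symm _ _ h1)
    · exact Or.inr (Or.inr ⟨EqvGen.symm _ _ h2, EqvGen.symm _ _ h1⟩)
    · exact Or.inr (Or.inl ⟨EqvGen.symm _ _ h2, EqvGen.symm _ _ h1⟩)
  | trans x y z _ _ ih1 ih2 =>
    rcases ih1 with h1 | ⟨h1, h2⟩ | ⟨h1, h2⟩
    · rcases ih2 with h3 | ⟨h3, h4⟩ | ⟨h3, h4⟩
      · exact Or.inl (EqvGen.trans _ _ _ h1 h3)
      · exact Or.inr (Or.inl ⟨EqvGen.trans _ _ _ h1 h3, h4⟩)
      · exact Or.inr (Or.inr ⟨EqvGen.trans _ _ _ h1 h3, h4⟩)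
    · rcases ih2 with h3 | ⟨h3, h4⟩ | ⟨h3, h4⟩
      · exact Or.inr (Or.inl ⟨h1, EqvGen.trans _ _ _ h2 h3⟩)
      · exact Or.inr (Or.inl ⟨h1, h4⟩)
      · exact Or.inl (EqvGen.trans _ _ _ h1 h4)
    · rcases ih2 with h3 | ⟨h3, h4⟩ | ⟨h3, h4⟩
      · exact Or.inr (Or.inr ⟨h1, EqvGen.trans _ _ _ h2 h3⟩)
      · exact Or.inl (EqvGen.trans _ _ _ h1 h4)
      · exact Or.inr (Or.inr ⟨h1, h4⟩)

end LTree.AbsK
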