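import Pool.Agent.Work.MP_0c526b_al.Full.AbsK

/-!
# The group of a leaf of a finite abstract system is finitely generated (Schreier)
-/

set_option autoImplicit false

namespace LTree.AbsK

open LTree.Idx Relation

variable {G : Type*} [Group G] {P : Type*} [MulAction G P] {Q : Type*} [MulAction G Q]

/-- The group of the leaf of `v`. -/
def leafGrp (E : Set (Ed G P Q)) (v : P) : Subgroup G where
  carrier := {g | Pw E v g ∧ g • v = v}
  mul_mem' := by
    rintro a b ⟨ha, ha'⟩ ⟨hb, hb'⟩
    refine ⟨hb.mul (by rw [hb']; exact ha), ?_⟩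
    rw [mul_smul, hb', ha']
  one_mem' := ⟨Pw.nil v, one_smul _ _⟩
  inv_mem' := by
    rintro a ⟨ha, ha'⟩
    refine ⟨?_, ?_⟩
    · have := ha.inv
      rwa [ha'] at this
    · rw [inv_smul_eq_iff, ha']

lemma mem_leafGrp {E : Set (Ed G P Q)} {v : P} {g : G} :
    g ∈ leafGrp E v ↔ Pw E v g ∧ g • v = v := Iff.rfl

lemma leafGrp_mono {E E' : Set (Ed G P Q)} (hE : E ⊆ E') (v : P) :
    leafGrp E v ≤ leafGrp E' v := fun _ h => ⟨h.1.mono hE, h.2⟩

lemma nt_iff {E : Set (Ed G P Q)} {v : P} : Nt E v ↔ leafGrp E v ≠ ⊥ := by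
  rw [Ne, Subgroup.eq_bot_iff_forall]
  constructor
  · rintro ⟨g, h1, h2, h3⟩ h
    exact h1 (h g ⟨h2, h3⟩)
  · intro h
    push Not at h
    obtain ⟨g, hg, h1⟩ := h
    exact ⟨g, h1, hg.1, hg.2⟩

/-- The group of a leaf depends only on the subset of the loops; a path of the group of the union
of finite subsystems lies in a finite subsystem. -/
lemma Pw.finite_support {E : Set (Ed G P Q)} {v : P} {g : G} (h : Pw E v g) :
    ∃ E' ⊆ E, E'.Finite ∧ Pw E' v g := by
  induction h with
  | nil v => exact ⟨∅, Set.empty_subset _, Set.finite_empty, Pw.nil v⟩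
  | fw e he g _ ih =>
    obtain ⟨E', h1, h2, h3⟩ := ih
    exact ⟨insert e E', Set.insert_subset he h1, h2.insert e,
      Pw.fw e (Set.mem_insert _ _) g (h3.mono (Set.subset_insert _ _))⟩
  | bw e he g _ ih =>
    obtain ⟨E', h1, h2, h3⟩ := ih
    exact ⟨insert e E', Set.insert_subset he h1, h2.insert e,
      Pw.bw e (Set.mem_insert _ _) g (h3.mono (Set.subset_insert _ _))⟩

/-- **Schreier.** The group of a leaf of a finite system is finitely generated. -/
theorem leafGrp_fg {E : Set (Ed G P Q)} (hE : E.Finite) (v : P) : (leafGrp E v).FG := by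
  classical
  -- reachable vertices and chosen paths to them
  let Re : P → Prop := fun w => ∃ g : G, Pw E v g ∧ g • v = w
  let k : P → G := fun w => if h : w = v then 1 else if h' : Re w then h'.choose else 1
  have hk : ∀ w, Re w → Pw E v (k w) ∧ k w • v = w := by
    intro w hw
    by_cases h : w = v
    · have : k w = 1 := dif_pos h
      rw [this, h]
      exact ⟨Pw.nil v, one_smul _ _⟩
    · have : k w = hw.choose := by
        change dite _ _ _ = _
        rw [dif_neg h, dif_pos hw]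
      rw [this]
      exact hw.choose_spec
  have hkv : k v = 1 := dif_pos rfl
  have hfw : ∀ e ∈ E, Re e.v → Re (e.h • e.v) := by
    rintro e he ⟨g, hg, hgv⟩
    refine ⟨e.h * g, hg.mul (by rw [hgv]; exact Pw.one_fw he), ?_⟩
    rw [mul_smul, hgv]
  have hbw : ∀ e ∈ E, Re (e.h • e.v) → Re e.v := by
    rintro e he ⟨g, hg, hgv⟩
    refine ⟨e.h⁻¹ * g, hg.mul (by rw [hgv]; exact Pw.one_bw he), ?_⟩
    rw [mul_smul, hgv, inv_smul_smul]
  let T : Set G := (fun e : Ed G P Q => (k (e.h • e.v))⁻¹ * e.h * k e.v) '' {e ∈ E | Re e.v}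
  have hTfin : T.Finite := (hE.subset (Set.sep_subset _ _)).image _
  have hTmem : ∀ e ∈ E, Re e.v → (k (e.h • e.v))⁻¹ * e.h * k e.v ∈ Subgroup.closure T :=
    fun e he hv => Subgroup.subset_closure ⟨e, ⟨he, hv⟩, rfl⟩
  have key : ∀ {u : P} {g : G}, Pw E u g → Re u →
      (k (g • u))⁻¹ * g * k u ∈ Subgroup.closure T := by
    intro u g h
    induction h with
    | nil u => intro _; simp
    | fw e he g _ ih =>
      intro hu
      have h1 := Subgroup.mul_mem _ (ih (hfw e he hu)) (hTmem e he hu)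
      rw [mul_smul]
      convert h1 using 1
      group
    | bw e he g _ ih =>
      intro hu
      have h1 := Subgroup.mul_mem _ (ih (hbw e he hu))
        (Subgroup.inv_mem _ (hTmem e he (hbw e he hu)))
      rw [mul_smul, inv_smul_smul]
      convert h1 using 1
      group
  rw [Subgroup.fg_iff]
  refine ⟨T, le_antisymm ?_ ?_, hTfin⟩
  · rw [Subgroup.closure_le]
    rintro _ ⟨e, ⟨he, hv⟩, rfl⟩
    have h1 := hk _ hv
    have h2 := hk _ (hfw e he hv)
    change Pw E v ((k (e.h • e.v))⁻¹ * e.h * k e.v) ∧ ((k (e.h • e.v))⁻¹ * e.h * k e.v) • v = v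
    refine ⟨?_, ?_⟩
    · rw [mul_assoc]
      refine Pw.mul (h1.1.mul (by rw [h1.2]; exact Pw.one_fw he)) ?_
      rw [mul_smul, h1.2]
      have := h2.1.inv
      rwa [h2.2] at this
    · rw [mul_smul, mul_smul, h1.2, inv_smul_eq_iff, h2.2]
  · rintro g ⟨hg, hgv⟩
    have := key hg ⟨1, Pw.nil v, one_smul _ _⟩
    rw [hgv, hkv] at this
    simpa using this

end LTree.AbsK
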