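import Pool.Agent.Work.MP_0c526b_al.Full.Clos
import Pool.Agent.Work.MP_0c526b_al.Idx.Balls
import Pool.Agent.Work.MP_0c526b_al.Idx.Classes

/-!
# Admissible systems, fold steps, stable systems (X-level)
-/

set_option autoImplicit false

namespace LTree.Idx

open LTree

variable {Λ : Type*} [AddCommGroup Λ] [LinearOrder Λ] [IsOrderedAddMonoid Λ] {X : Type*}
variable {D : Dist Λ X} {G : Type*} [Group G] [MulAction G X]

/-- A finite set of translates of the base point. -/
noncomputable def orb (x0 : X) (A : Finset G) : Finset X := by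
  classical
  exact A.image (fun w => w • x0)

lemma mem_orb {x0 : X} {A : Finset G} {y : X} : y ∈ orb x0 A ↔ ∃ w ∈ A, y = w • x0 := by
  classical
  have e : orb x0 A = A.image (fun w => w • x0) := by
    unfold orb
    congr
  rw [e, Finset.mem_image]
  constructor
  · rintro ⟨w, hw, rfl⟩; exact ⟨w, hw, rfl⟩
  · rintro ⟨w, hw, rfl⟩; exact ⟨w, hw, rfl⟩

lemma hull_mono {F F' : Finset X} (h : F ⊆ F') {y : X} (hy : y ∈ hull D F) : y ∈ hull D F' := by
  obtain ⟨f, hf, f', hf', hb⟩ := hy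
  exact ⟨f, h hf, f', h hf', hb⟩

lemma orb_mono {x0 : X} {A A' : Finset G} (h : A ⊆ A') : orb x0 A ⊆ orb x0 A' := by
  intro y hy
  obtain ⟨w, hw, rfl⟩ := mem_orb.1 hy
  exact mem_orb.2 ⟨w, h hw, rfl⟩

/-- The convex hull of the orbit of the base point. -/
def hullO (D : Dist Λ X) (G : Type*) [Group G] [MulAction G X] (x0 : X) : Set X :=
  {y | ∃ g h : G, Btw D (g • x0) y (h • x0)}

lemma hullO_iff {x0 y : X} : y ∈ hullO D G x0 ↔ ∃ A : Finset G, y ∈ hull D (orb x0 A) := by
  classical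
  constructor
  · rintro ⟨g, h, hb⟩
    exact ⟨{g, h}, _, mem_orb.2 ⟨g, by simp, rfl⟩, _, mem_orb.2 ⟨h, by simp, rfl⟩, hb⟩
  · rintro ⟨A, f, hf, f', hf', hb⟩
    obtain ⟨g, _, rfl⟩ := mem_orb.1 hf
    obtain ⟨h, _, rfl⟩ := mem_orb.1 hf'
    exact ⟨g, h, hb⟩

lemma smul_hullO (hG : FreeAct D G) {x0 y : X} (g : G) (hy : y ∈ hullO D G x0) :
    g • y ∈ hullO D G x0 := by
  obtain ⟨a, b, hb⟩ := hy
  refine ⟨g * a, g * b, ?_⟩
  rw [mul_smul, mul_smul]
  exact hG.btw g hb

lemma orbit_hullO (x0 : X) (g : G) : g • x0 ∈ hullO D G x0 := ⟨g, g, btw_left _ _⟩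

lemma base_hullO (x0 : X) : x0 ∈ hullO D G x0 := ⟨1, 1, by rw [one_smul]; exact btw_left _ _⟩

/-- finitely many points of the hull of the orbit lie in one finite hull -/
lemma exists_orb {x0 : X} (P : Finset X) (hP : ∀ y ∈ P, y ∈ hullO D G x0) (A0 : Finset G) :
    ∃ A : Finset G, A0 ⊆ A ∧ ∀ y ∈ P, y ∈ hull D (orb x0 A) := by
  classical
  induction P using Finset.induction_on with
  | empty => exact ⟨A0, Finset.Subset.refl _, by simp⟩
  | insert y P _ ih =>
    obtain ⟨A, hA, h⟩ := ih (fun z hz => hP z (Finset.mem_insert_of_mem hz))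
    obtain ⟨B, hB⟩ := hullO_iff.1 (hP y (Finset.mem_insert_self _ _))
    refine ⟨A ∪ B, hA.trans Finset.subset_union_left, ?_⟩
    intro z hz
    rcases Finset.mem_insert.1 hz with rfl | hz
    · exact hull_mono (orb_mono Finset.subset_union_right) hB
    · exact hull_mono (orb_mono Finset.subset_union_left) (h z hz)

lemma hullO_convex (hT : IsTree D) {x0 y z m : X} (hy : y ∈ hullO D G x0)
    (hz : z ∈ hullO D G x0) (h : Btw D y m z) : m ∈ hullO D G x0 := by
  classical
  obtain ⟨A, _, hA⟩ := exists_orb (D := D) (G := G) (x0 := x0) {y, z} (by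
    intro w hw
    rcases Finset.mem_insert.1 hw with rfl | hw
    · exact hy
    · rw [Finset.mem_singleton.1 hw]; exact hz) ∅
  exact hullO_iff.2 ⟨A, hull_convex hT (hA y (by simp)) (hA z (by simp)) h⟩

/-- Admissible systems. -/
structure Adm (D : Dist Λ X) (S : Finset G) (x0 : X) (T : Set (Letter X G)) : Prop where
  fin : T.Finite
  flag : ∀ l ∈ T, l.flag = false
  ha : ∀ l ∈ T, l.a ∈ hullO D G x0
  hb : ∀ l ∈ T, l.b ∈ hullO D G x0
  pts : ∀ s ∈ S, (⟨x0, x0, s, false⟩ : Letter X G) ∈ T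

/-- The index of `T` is at most `c` in all finite hulls. -/
def ClaimA (D : Dist Λ X) (T : Set (Letter X G)) (c : ℤ) : Prop :=
  ∀ F : Finset X, F.Nonempty → Sys D F T → Claim D F T c

/-- Stable systems: admissible, and of least index among all admissible systems. -/
def XStable (D : Dist Λ X) (S : Finset G) (x0 : X) (T : Set (Letter X G)) : Prop :=
  Adm D S x0 T ∧ ∃ c, ClaimA D T c ∧ ∀ T' c', Adm D S x0 T' → ClaimA D T' c' → c ≤ c'

/-- A system lives in a finite hull of the orbit. -/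
lemma Adm.exists_sys (hG : FreeAct D G) {S : Finset G} {x0 : X} {T : Set (Letter X G)}
    (h : Adm D S x0 T) (A0 : Finset G) : ∃ A, A0 ⊆ A ∧ Sys D (orb x0 A) T := by
  classical
  let TT : Finset (Letter X G) := h.fin.toFinset
  have hTT : ∀ l, l ∈ TT ↔ l ∈ T := fun l => h.fin.mem_toFinset
  let P : Finset X := (TT.image (fun l => l.a) ∪ TT.image (fun l => l.b)) ∪
    (TT.image (fun l => l.h • l.a) ∪ TT.image (fun l => l.h • l.b))
  obtain ⟨A, hA0, hA⟩ := exists_orb (D := D) (G := G) (x0 := x0) P (by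
    intro x hx
    simp only [P, Finset.mem_union, Finset.mem_image, hTT] at hx
    rcases hx with (⟨l, hl, rfl⟩ | ⟨l, hl, rfl⟩) | (⟨l, hl, rfl⟩ | ⟨l, hl, rfl⟩)
    · exact h.ha l hl
    · exact h.hb l hl
    · exact smul_hullO hG _ (h.ha l hl)
    · exact smul_hullO hG _ (h.hb l hl)) A0
  refine ⟨A, hA0, h.fin, h.flag, ?_, ?_, ?_, ?_⟩
  · intro l hl
    refine hA _ ?_
    simp only [P, Finset.mem_union, Finset.mem_image, hTT]
    exact Or.inl (Or.inl ⟨l, hl, rfl⟩)
  · intro l hl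
    refine hA _ ?_
    simp only [P, Finset.mem_union, Finset.mem_image, hTT]
    exact Or.inl (Or.inr ⟨l, hl, rfl⟩)
  · intro l hl
    refine hA _ ?_
    simp only [P, Finset.mem_union, Finset.mem_image, hTT]
    exact Or.inr (Or.inl ⟨l, hl, rfl⟩)
  · intro l hl
    refine hA _ ?_
    simp only [P, Finset.mem_union, Finset.mem_image, hTT]
    exact Or.inr (Or.inr ⟨l, hl, rfl⟩)

lemma Sys.mono {F : Finset X} {T T' : Set (Letter X G)} (h : Sys D F T') (hT : T ⊆ T') :
    Sys D F T :=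
  ⟨h.fin.subset hT, fun l hl => h.flag l (hT hl), fun l hl => h.ha l (hT hl),
    fun l hl => h.hb l (hT hl), fun l hl => h.ga l (hT hl), fun l hl => h.gb l (hT hl)⟩

lemma Adm.insert {S : Finset G} {x0 : X} {T : Set (Letter X G)} (h : Adm D S x0 T) {p q : X}
    (g : G) (hp : p ∈ hullO D G x0) (hq : q ∈ hullO D G x0) :
    Adm D S x0 (insert ⟨p, q, g, false⟩ T) where
  fin := h.fin.insert _
  flag := by
    rintro l (rfl | hl)
    · rfl
    · exact h.flag l hl
  ha := by
    rintro l (rfl | hl)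
    · exact hp
    · exact h.ha l hl
  hb := by
    rintro l (rfl | hl)
    · exact hq
    · exact h.hb l hl
  pts := fun s hs => Set.mem_insert_of_mem _ (h.pts s hs)

/-- Words at the times reached. -/
lemma JJ_word' {hT : IsTree D} {T : Set (Letter X G)} (hTf : ∀ l ∈ T, l.flag = false) {p q : X}
    {g : G} (h0 : Conn D T p g) {μ : Λ} (hμ : μ ∈ JJ hT (LT T p q g) p q g) :
    ∃ w : List (Letter X G), (∀ l ∈ w, l ∈ LT T p q g) ∧ val w = g ∧ ok D μ w (pt hT p q μ) := by
  rcases Relation.ReflTransGen.cases_tail hμ with e | ⟨b, -, hb⟩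
  · obtain ⟨w0, hw0, hm0, hv0⟩ := h0
    refine ⟨w0, fun l hl => Or.inl (hw0 l hl), hv0, ?_⟩
    rw [e, pt_zero]
    exact ok_of_mem hm0 (fun l hl => fx_lett_flag hTf (hw0 l hl))
  · obtain ⟨-, -, -, w, hw, hv, -, hc⟩ := hb
    exact ⟨w, hw, hv, hc⟩

/-- The first half of a fold step. -/
theorem closedA (hT : IsTree D) (hG : FreeAct D G) {T : Set (Letter X G)} {c : ℤ}
    (hc : ClaimA D T c) {p q : X} {g : G} (h0 : Conn D T p g) {μ : Λ}
    (hμ : μ ∈ JJ hT (LT T p q g) p q g) :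
    ClaimA D (insert ⟨p, pt hT p q μ, g, false⟩ T) c := by
  intro F hne hF
  have hS : Sys D F T := hF.mono (Set.subset_insert _ _)
  have hl : (⟨p, pt hT p q μ, g, false⟩ : Letter X G) ∈
    (insert ⟨p, pt hT p q μ, g, false⟩ T : Set (Letter X G)) := Set.mem_insert _ _
  have hb := JJ_nonneg hμ
  have hd : D.d p (pt hT p q μ) = μ := d_pt hT hb.1 hb.2
  obtain ⟨w, hw, hv, hok⟩ := JJ_word' hS.flag h0 hμ
  obtain ⟨w', hw', hv', hok'⟩ := short_word hT hG (pt_btw hT hb.1 hb.2) hw hd.ge hok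
  refine fold_closed hT hG hS (hc F hne hS) (hF.ha _ hl) (hF.hb _ hl) (hF.ga _ hl) (hF.gb _ hl)
    (btw_right _ _) h0 ⟨w', hw', hv'.trans hv, ?_⟩
  rw [hd]
  exact hok'

/-- The new family connects its end point. -/
lemma conn_new {T : Set (Letter X G)} {p q : X} {g : G} :
    Conn D (insert (⟨p, q, g, false⟩ : Letter X G) T) q g :=
  ⟨[⟨p, q, g, false⟩], by
    intro l h
    rw [List.mem_singleton] at h
    rw [h]; exact Or.inl (Or.inl rfl), ⟨btw_right _ _, trivial⟩, by simp [val]⟩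

/-- No word is valid beyond the largest time. -/
theorem not_begin (hT : IsTree D) (hG : FreeAct D G) {T : Set (Letter X G)}
    (hTf : ∀ l ∈ T, l.flag = false) {p q : X} {g : G} {μ : Λ}
    (hμ : μ ∈ JJ hT (LT T p q g) p q g) (hmax : ∀ t ∈ JJ hT (LT T p q g) p q g, t ≤ μ) :
    ¬ Begin D (insert ⟨p, pt hT p q μ, g, false⟩ T) (pt hT p q μ) q g := by
  rintro ⟨w1, m, hw1, hv1, hm, hbm, m1, m2⟩
  have hb0 := JJ_nonneg hμ
  have hb : Btw D p (pt hT p q μ) q := pt_btw hT hb0.1 hb0.2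
  have hd : D.d p (pt hT p q μ) = μ := d_pt hT hb0.1 hb0.2
  obtain ⟨w', hw', hv', ok1, ok2⟩ := flag_word hT hG hTf hb hbm hm hw1 m1 m2
  obtain ⟨hpm, h3⟩ := btw_trans hb hbm
  have hlt : μ < D.d p m := by
    have h1 := D.nonneg (pt hT p q μ) m
    have h2 : D.d (pt hT p q μ) m ≠ 0 := fun h => hm (D.eq_of_d _ _ h).symm
    unfold Btw at h3
    grind
  have hle : D.d p m ≤ D.d p q := by
    have := D.nonneg m q
    unfold Btw at hpm
    grind
  have : D.d p m ∈ JJ hT (LT T p q g) p q g := by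
    refine Relation.ReflTransGen.tail hμ ⟨hb0.1, hlt.le, hle, w', hw', by rw [hv', hv1], ?_, ?_⟩
    · rw [← hd]; rw [hd]; rw [hd] at ok1; exact ok1
    · rw [pt_of_btw hT hpm]; exact ok2
  exact absurd (hmax _ this) (not_le.2 hlt)

/-- The second half of a fold step. -/
theorem openA (hT : IsTree D) (hG : FreeAct D G) {T : Set (Letter X G)} {c : ℤ} {q' q : X} {g : G}
    (hc : ClaimA D T c) (h0 : Conn D T q' g) (h1 : ¬ Begin D T q' q g) :
    ClaimA D (insert ⟨q', q, g, false⟩ T) c := by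
  intro F hne hF
  have hS : Sys D F T := hF.mono (Set.subset_insert _ _)
  have hl : (⟨q', q, g, false⟩ : Letter X G) ∈
    (insert ⟨q', q, g, false⟩ T : Set (Letter X G)) := Set.mem_insert _ _
  by_cases e : q' = q
  · subst e
    obtain ⟨w, hw, hm, hv⟩ := id h0
    exact fold_closed hT hG hS (hc F hne hS) (hF.ha _ hl) (hF.hb _ hl) (hF.ga _ hl) (hF.gb _ hl)
      (btw_right _ _) h0 ⟨w, fun l hl => Or.inl (hw l hl), hv,
        ok_of_mem hm (fun l hl => fx_lett_flag hS.flag (hw l hl))⟩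
  · exact fold_open hT hG hS (hc F hne hS) (hF.ha _ hl) (hF.hb _ hl) (hF.ga _ hl) (hF.gb _ hl)
      h0 e h1

/-- **Stable lemma.** -/
theorem stable_lemma (hT : IsTree D) (hG : FreeAct D G) {S : Finset G} {x0 : X}
    {T : Set (Letter X G)} (hst : XStable D S x0 T) {p q : X} {g : G} (hp : p ∈ hullO D G x0)
    (hq : q ∈ hullO D G x0) (h0 : Conn D T p g) (h1 : ¬ Begin D T p q g) {y : X}
    (hy : Btw D p y q) (hne : y ≠ p) : ¬ Conn D T y g := by
  intro h2
  obtain ⟨hA, c, hc, hmin⟩ := hst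
  have hyO : y ∈ hullO D G x0 := hullO_convex hT hp hq hy
  have h1' : ¬ Begin D T p y g := by
    rintro ⟨w, m, a1, a2, a3, a4, a5, a6⟩
    exact h1 ⟨w, m, a1, a2, a3, (btw_trans' hy a4).1, a5, a6⟩
  have := hmin _ (c - 1) (hA.insert g hp hyO) (by
    intro F hFn hF
    have hS : Sys D F T := hF.mono (Set.subset_insert _ _)
    have hl : (⟨p, y, g, false⟩ : Letter X G) ∈
      (insert ⟨p, y, g, false⟩ T : Set (Letter X G)) := Set.mem_insert _ _
    exact stable_step hT hG hS (hc F hFn hS) (hF.ha _ hl) (hF.hb _ hl) (hF.ga _ hl) (hF.gb _ hl)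
      h0 (Ne.symm hne) h1' h2)
  linarith

/-- One fold step. -/
def FStep (hT : IsTree D) (x0 : X) (T T' : Set (Letter X G)) : Prop :=
  ∃ (p q : X) (g : G) (μ : Λ), p ∈ hullO D G x0 ∧ q ∈ hullO D G x0 ∧ Conn D T p g ∧
    μ ∈ JJ hT (LT T p q g) p q g ∧ (∀ t ∈ JJ hT (LT T p q g) p q g, t ≤ μ) ∧
    T' = insert ⟨pt hT p q μ, q, g, false⟩ (insert ⟨p, pt hT p q μ, g, false⟩ T)

lemma FStep.sub {hT : IsTree D} {x0 : X} {T T' : Set (Letter X G)} (h : FStep hT x0 T T') :
    T ⊆ T' := by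
  obtain ⟨p, q, g, μ, -, -, -, -, -, rfl⟩ := h
  exact (Set.subset_insert _ _).trans (Set.subset_insert _ _)

lemma FStep.adm {hT : IsTree D} {S : Finset G} {x0 : X} {T T' : Set (Letter X G)}
    (h : FStep hT x0 T T') (hA : Adm D S x0 T) : Adm D S x0 T' := by
  obtain ⟨p, q, g, μ, hp, hq, -, hμ, -, rfl⟩ := h
  have hb := JJ_nonneg hμ
  have hm : pt hT p q μ ∈ hullO D G x0 := hullO_convex hT hp hq (pt_btw hT hb.1 hb.2)
  exact (hA.insert g hp hm).insert g hm hq

lemma FStep.claim {hT : IsTree D} (hG : FreeAct D G) {x0 : X} {T T' : Set (Letter X G)}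
    (h : FStep hT x0 T T') (hTf : ∀ l ∈ T, l.flag = false) {c : ℤ} (hc : ClaimA D T c) :
    ClaimA D T' c := by
  obtain ⟨p, q, g, μ, -, -, h0, hμ, hmax, rfl⟩ := h
  exact openA hT hG (closedA hT hG hc h0 hμ) conn_new (not_begin hT hG hTf hμ hmax)

lemma XStable.insert_closed {hT : IsTree D} (hG : FreeAct D G) {S : Finset G} {x0 : X}
    {T : Set (Letter X G)} (hst : XStable D S x0 T) {p q : X} {g : G} (hp : p ∈ hullO D G x0)
    (hq : q ∈ hullO D G x0) (h0 : Conn D T p g) {μ : Λ} (hμ : μ ∈ JJ hT (LT T p q g) p q g) :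
    XStable D S x0 (insert ⟨p, pt hT p q μ, g, false⟩ T) := by
  obtain ⟨hA, c, hc, hmin⟩ := hst
  have hb := JJ_nonneg hμ
  have hm : pt hT p q μ ∈ hullO D G x0 := hullO_convex hT hp hq (pt_btw hT hb.1 hb.2)
  exact ⟨hA.insert g hp hm, c, closedA hT hG hc h0 hμ, hmin⟩

lemma FStep.stable {hT : IsTree D} (hG : FreeAct D G) {S : Finset G} {x0 : X}
    {T T' : Set (Letter X G)} (h : FStep hT x0 T T') (hst : XStable D S x0 T) :
    XStable D S x0 T' := by
  obtain ⟨hA, c, hc, hmin⟩ := hst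
  exact ⟨h.adm hA, c, h.claim hG hA.flag hc, hmin⟩

/-- Fold steps exist. -/
theorem exists_FStep (hT : IsTree D) (hG : FreeAct D G) {S : Finset G} {x0 : X}
    {T : Set (Letter X G)} (hA : Adm D S x0 T) {p q : X} {g : G} (hp : p ∈ hullO D G x0)
    (hq : q ∈ hullO D G x0) (h0 : Conn D T p g) :
    ∃ q' : X, Btw D p q' q ∧
      FStep hT x0 T (insert ⟨q', q, g, false⟩ (insert ⟨p, q', g, false⟩ T)) := by
  classical
  obtain ⟨A0, -, hA0⟩ := exists_orb (D := D) (G := G) (x0 := x0) {p, q, g • p, g • q} (by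
    intro w hw
    simp only [Finset.mem_insert, Finset.mem_singleton] at hw
    rcases hw with rfl | rfl | rfl | rfl
    · exact hp
    · exact hq
    · exact smul_hullO hG g hp
    · exact smul_hullO hG g hq) ∅
  obtain ⟨A, hAA, hS⟩ := hA.exists_sys hG A0
  have hin : ∀ y ∈ ({p, q, g • p, g • q} : Finset X), y ∈ hull D (orb x0 A) :=
    fun y hy => hull_mono (orb_mono hAA) (hA0 y hy)
  have hp' := hin p (by simp)
  have hq' := hin q (by simp)
  have gp := hin (g • p) (by simp)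
  have gq := hin (g • q) (by simp)
  obtain ⟨Sg, hAl⟩ := fx_exists_Alph hT hS hp' hq' gp gq
  obtain ⟨w0, hw0, hm0, hv0⟩ := id h0
  have hCl : Cl hT (orb x0 A) Sg (LT T p q g) p q g w0 :=
    { hG := hG
      al := hAl
      he := Or.inr (Or.inl rfl)
      w0L := fun l hl => Or.inl (hw0 l hl)
      w0ok := ok_of_mem hm0 (fun l hl => fx_lett_flag hS.flag (hw0 l hl))
      w0val := hv0 }
  obtain ⟨μ, hμ, hmax⟩ := closing' hCl hp' hq' gp gq
  have hb := JJ_nonneg hμ
  exact ⟨pt hT p q μ, pt_btw hT hb.1 hb.2, p, q, g, μ, hp, hq, h0, hμ, hmax, rfl⟩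

/-- Chains of fold steps. -/
def Chain (hT : IsTree D) (x0 : X) : Set (Letter X G) → Set (Letter X G) → Prop :=
  Relation.ReflTransGen (FStep hT x0)

lemma Chain.sub {hT : IsTree D} {x0 : X} {T T' : Set (Letter X G)} (h : Chain hT x0 T T') :
    T ⊆ T' := by
  induction h with
  | refl => exact Set.Subset.refl _
  | tail _ h ih => exact ih.trans h.sub

lemma Chain.adm {hT : IsTree D} {S : Finset G} {x0 : X} {T T' : Set (Letter X G)}
    (h : Chain hT x0 T T') (hA : Adm D S x0 T) : Adm D S x0 T' := by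
  induction h with
  | refl => exact hA
  | tail _ h ih => exact h.adm ih

lemma Chain.claim {hT : IsTree D} (hG : FreeAct D G) {S : Finset G} {x0 : X}
    {T T' : Set (Letter X G)} (h : Chain hT x0 T T') (hA : Adm D S x0 T) {c : ℤ}
    (hc : ClaimA D T c) : ClaimA D T' c := by
  have key : Adm D S x0 T' ∧ ClaimA D T' c := by
    induction h with
    | refl => exact ⟨hA, hc⟩
    | tail _ h ih => exact ⟨h.adm ih.1, h.claim hG ih.1.flag ih.2⟩
  exact key.2

lemma Chain.stable {hT : IsTree D} (hG : FreeAct D G) {S : Finset G} {x0 : X}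
    {T T' : Set (Letter X G)} (h : Chain hT x0 T T') (hst : XStable D S x0 T) :
    XStable D S x0 T' := by
  induction h with
  | refl => exact hst
  | tail _ h ih => exact h.stable hG ih

/-- After some fold steps all elements of a ball are values of words at the base point. -/
theorem exists_chain (hT : IsTree D) (hG : FreeAct D G) {S : Finset G} {x0 : X}
    {T : Set (Letter X G)} (hA : Adm D S x0 T) (n : ℕ) :
    ∃ T', Chain hT x0 T T' ∧
      (Sys D (orb x0 (ball S (n + 1))) T → Sys D (orb x0 (ball S (n + 1))) T') ∧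
      ∀ w ∈ ball S (n + 1), Conn D T' x0 w := by
  classical
  have hW : ∀ w ∈ ball S (n + 1), w • x0 ∈ hull D (orb x0 (ball S (n + 1))) :=
    fun w hw => subset_hull (mem_orb.2 ⟨w, hw, rfl⟩)
  have hx0 : x0 ∈ hull D (orb x0 (ball S (n + 1))) := by
    have := hW 1 (one_mem_ball S _)
    rwa [one_smul] at this
  have step : ∀ P : Finset (G × G), (∀ u ∈ P, u.1 ∈ S ∧ u.2 ∈ ball S (n + 1) ∧
        u.1 * u.2 ∈ ball S (n + 1)) →
      ∃ T', Chain hT x0 T T' ∧
        (Sys D (orb x0 (ball S (n + 1))) T → Sys D (orb x0 (ball S (n + 1))) T') ∧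
        ∀ u ∈ P, ∃ l ∈ T', l.h = u.1 ∧ Btw D l.a (u.2 • x0) l.b := by
    intro P
    induction P using Finset.induction_on with
    | empty => exact fun _ => ⟨T, Relation.ReflTransGen.refl, id, by simp⟩
    | insert u P hu ih =>
      intro hP
      obtain ⟨T1, hT1, hS1, h1⟩ := ih (fun v hv => hP v (Finset.mem_insert_of_mem hv))
      obtain ⟨hs, hw, hsw⟩ := hP u (Finset.mem_insert_self _ _)
      have hA1 : Adm D S x0 T1 := Chain.adm hT1 hA
      have h0 : Conn D T1 x0 u.1 := by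
        refine ⟨[⟨x0, x0, u.1, false⟩], ?_, ⟨btw_left _ _, trivial⟩, by simp [val]⟩
        intro l hl
        rw [List.mem_singleton.1 hl]
        exact Or.inl (hA1.pts _ hs)
      obtain ⟨q', hb, hT2⟩ := exists_FStep hT hG hA1 (base_hullO x0)
        (orbit_hullO x0 u.2) h0
      have gp : u.1 • x0 ∈ hull D (orb x0 (ball S (n + 1))) := hW _ (subset_ball S n hs)
      have gq : u.1 • u.2 • x0 ∈ hull D (orb x0 (ball S (n + 1))) := by
        rw [← mul_smul]; exact hW _ hsw
      refine ⟨_, Relation.ReflTransGen.tail hT1 hT2, fun hSy => ?_, ?_⟩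
      · exact fx_sys_insert (fx_sys_insert (hS1 hSy) hx0 (hull_convex hT hx0 (hW _ hw) hb) gp
          (hull_convex hT gp gq (hG.btw _ hb))) (hull_convex hT hx0 (hW _ hw) hb) (hW _ hw)
          (hull_convex hT gp gq (hG.btw _ hb)) gq
      · intro v hv
        rcases Finset.mem_insert.1 hv with rfl | hv
        · exact ⟨_, Or.inl rfl, rfl, btw_right _ _⟩
        · obtain ⟨l, hl, h⟩ := h1 v hv
          exact ⟨l, hT2.sub hl, h⟩
  obtain ⟨T', hT', hSy, h⟩ := step ((S ×ˢ ball S (n + 1)).filter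
      (fun u => u.1 * u.2 ∈ ball S (n + 1))) (by
    intro u hu
    obtain ⟨h2, h3⟩ := Finset.mem_filter.1 hu
    obtain ⟨h4, h5⟩ := Finset.mem_product.1 h2
    exact ⟨h4, h5, h3⟩)
  refine ⟨T', hT', hSy, fun w hw => conn_ball hG S x0 (n + 1) T' ?_ (n + 1) le_rfl w hw⟩
  intro s hs w hw hsw
  exact h (s, w) (Finset.mem_filter.2 ⟨Finset.mem_product.2 ⟨hs, hw⟩, hsw⟩)

lemma Sys.hull_mono {F F' : Finset X} (h : F ⊆ F') {T : Set (Letter X G)} (hS : Sys D F T) :
    Sys D F' T :=
  ⟨hS.fin, hS.flag, fun l hl => LTree.Idx.hull_mono h (hS.ha l hl),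
    fun l hl => LTree.Idx.hull_mono h (hS.hb l hl), fun l hl => LTree.Idx.hull_mono h (hS.ga l hl),
    fun l hl => LTree.Idx.hull_mono h (hS.gb l hl)⟩

/-- Extension of a system to a system which connects all of a finite set of translates. -/
theorem exists_full (hT : IsTree D) (hG : FreeAct D G) {S : Finset G}
    (hS : Subgroup.closure (S : Set G) = ⊤) {x0 : X} {T : Set (Letter X G)}
    (hA : Adm D S x0 T) (B : Finset G) : ∃ (T' : Set (Letter X G)) (A : Finset G), B ⊆ A ∧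
      (1 : G) ∈ A ∧ Chain hT x0 T T' ∧ Sys D (orb x0 A) T' ∧ ∀ w ∈ A, Conn D T' x0 w := by
  classical
  obtain ⟨A, hBA, hSys⟩ := hA.exists_sys hG B
  obtain ⟨n, hn⟩ := ball_exhaust S hS A
  obtain ⟨T', hT', hSy, hconn⟩ := exists_chain hT hG hA n
  exact ⟨T', ball S (n + 1), hBA.trans (hn _ (Nat.le_succ n)), one_mem_ball S _, hT',
    hSy (hSys.hull_mono (orb_mono (hn _ (Nat.le_succ n)))), hconn⟩

/-- The lower bound. -/
theorem claim_ge (hT : IsTree D) (hG : FreeAct D G) {S : Finset G}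
    (hS : Subgroup.closure (S : Set G) = ⊤) {x0 : X} {T : Set (Letter X G)}
    (hA : Adm D S x0 T) {c : ℤ} (hc : ClaimA D T c) : -2 ≤ c := by
  classical
  obtain ⟨T', A, -, h1, hT', hSys, hconn⟩ := exists_full hT hG hS hA ∅
  have h := count_classes hT hG hSys (Chain.claim hG hT' hA hc _
    ⟨x0, mem_orb.2 ⟨1, h1, (one_smul G x0).symm⟩⟩ hSys)
    (mem_orb.2 ⟨1, h1, (one_smul G x0).symm⟩) (by
      intro f hf
      obtain ⟨w, hw, rfl⟩ := mem_orb.1 hf
      exact ⟨w, hconn w hw, rfl⟩) ∅ (by simp) (by simp) (by simp)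
  simp only [Finset.card_empty, Nat.cast_zero, zero_add] at h
  have : (0 : ℤ) ≤ ((dirs D (orb x0 A) x0).card : ℤ) := Int.natCast_nonneg _
  linarith

/-- The system of the point families. -/
theorem exists_adm (hT : IsTree D) (hG : FreeAct D G) (S : Finset G) (x0 : X) :
    ∃ T : Set (Letter X G), Adm D S x0 T ∧ ClaimA D T (2 * (S.card : ℤ) - 2) := by
  classical
  have key : ∀ S' : Finset G, ∃ T : Set (Letter X G), Adm D S' x0 T ∧
      ClaimA D T (2 * (S'.card : ℤ) - 2) := by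
    intro S'
    induction S' using Finset.induction_on with
    | empty =>
      refine ⟨∅, ⟨Set.finite_empty, by simp, by simp, by simp, by simp⟩, fun F hF _ => ?_⟩
      simpa using Claim_zero (G := G) hT hF
    | insert s S' hs ih =>
      obtain ⟨T, hT1, hT2⟩ := ih
      refine ⟨insert ⟨x0, x0, s, false⟩ T, ⟨hT1.fin.insert _, ?_, ?_, ?_, ?_⟩, ?_⟩
      · rintro l (rfl | hl)
        · rfl
        · exact hT1.flag l hl
      · rintro l (rfl | hl)
        · exact base_hullO x0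
        · exact hT1.ha l hl
      · rintro l (rfl | hl)
        · exact base_hullO x0
        · exact hT1.hb l hl
      · intro s' hs'
        rcases Finset.mem_insert.1 hs' with h | h
        · rw [h]; exact Set.mem_insert _ _
        · exact Set.mem_insert_of_mem _ (hT1.pts s' h)
      · intro F hF hSys
        have hS0 : Sys D F T := hSys.mono (Set.subset_insert _ _)
        have hl : (⟨x0, x0, s, false⟩ : Letter X G) ∈
          (insert ⟨x0, x0, s, false⟩ T : Set (Letter X G)) := Set.mem_insert _ _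
        have h := Claim_point hT hG hS0 (hT2 F hF hS0) (hSys.ha _ hl) (hSys.ga _ hl)
        have e : (2 * ((insert s S').card : ℤ) - 2) = 2 * (S'.card : ℤ) - 2 + 2 := by
          rw [Finset.card_insert_of_notMem hs]
          push_cast
          ring
        rw [e]
        exact h
  exact key S

/-- Stable systems exist. -/
theorem exists_stable (hT : IsTree D) (hG : FreeAct D G) {S : Finset G}
    (hS : Subgroup.closure (S : Set G) = ⊤) (x0 : X) :
    ∃ T : Set (Letter X G), XStable D S x0 T := by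
  classical
  obtain ⟨T0, hA0, hc0⟩ := exists_adm hT hG S x0
  let P : ℕ → Prop := fun n => ∃ T : Set (Letter X G), Adm D S x0 T ∧ ClaimA D T ((n : ℤ) - 2)
  have hP : ∃ n, P n := by
    refine ⟨(2 * (S.card : ℤ) - 2 + 2).toNat, T0, hA0, ?_⟩
    have := claim_ge hT hG hS hA0 hc0
    rw [Int.toNat_of_nonneg (by linarith)]
    simpa using hc0
  obtain ⟨T, hA, hc⟩ := Nat.find_spec hP
  refine ⟨T, hA, _, hc, fun T' c' hA' hc' => ?_⟩
  have h1 := claim_ge hT hG hS hA' hc'
  have h2 : P (c' + 2).toNat := by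
    refine ⟨T', hA', ?_⟩
    rw [Int.toNat_of_nonneg (by linarith)]
    simpa using hc'
  have h3 := Nat.find_min' hP h2
  omega

end LTree.Idx
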